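import Mathlib

set_option autoImplicit false

open MeasureTheory Set Cardinal

namespace Pool.Agent.Results.MP_fbee13_lc.RectangleEquivalence

/-- The sigma-algebra on the reals generated by the additive subgroups. -/
@[reducible] def grp : MeasurableSpace ℝ :=
  MeasurableSpace.generateFrom {S : Set ℝ | ∃ G : AddSubgroup ℝ, (G : Set ℝ) = S}

/-- The sigma-algebra on the plane generated by all rectangles. -/
@[reducible] def rct : MeasurableSpace (ℝ × ℝ) :=
  MeasurableSpace.generateFrom {R : Set (ℝ × ℝ) | ∃ A B : Set ℝ, R = A ×ˢ B}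

lemma rct_fst (A : Set ℝ) : @MeasurableSet _ rct (Prod.fst ⁻¹' A : Set (ℝ × ℝ)) := by
  apply MeasurableSpace.measurableSet_generateFrom
  exact ⟨A, Set.univ, by ext p; simp⟩

lemma rct_snd (A : Set ℝ) : @MeasurableSet _ rct (Prod.snd ⁻¹' A : Set (ℝ × ℝ)) := by
  apply MeasurableSpace.measurableSet_generateFrom
  exact ⟨Set.univ, A, by ext p; simp⟩

lemma rct_eq (f g : ℝ → ℝ) : @MeasurableSet _ rct {p : ℝ × ℝ | f p.1 = g p.2} := by
  let _ := rct
  have h1 : Measurable (fun p : ℝ × ℝ => f p.1) := by
    intro s _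
    exact rct_fst (f ⁻¹' s)
  have h2 : Measurable (fun p : ℝ × ℝ => g p.2) := by
    intro s _
    exact rct_snd (g ⁻¹' s)
  exact measurableSet_eq_fun h1 h2

lemma rct_subgroup (u v : ℝ → ℝ) (G : AddSubgroup ℝ) :
    @MeasurableSet _ rct {p : ℝ × ℝ | u p.1 + v p.2 ∈ G} := by
  have := rct_eq (fun s => Quotient.out (QuotientAddGroup.mk (s := G) (-(u s))))
    (fun t => Quotient.out (QuotientAddGroup.mk (s := G) (v t)))
  convert this using 1
  ext p
  simp only [Set.mem_ofPred_eq]
  constructor
  · intro h
    congr 1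
    rw [QuotientAddGroup.eq]
    simpa using h
  · intro h
    have h' := Quotient.out_injective h
    rw [QuotientAddGroup.eq] at h'
    simpa using h'

lemma exists_basis (ι : Type) (hι : #ι = 𝔠) : Nonempty (Module.Basis ι ℚ ℝ) := by
  let b := Module.Basis.ofVectorSpace ℚ ℝ
  have h1 : #(Module.Basis.ofVectorSpaceIndex ℚ ℝ) = 𝔠 := by
    rw [b.mk_eq_rank'', Real.rank_rat_real]
  have h2 : #(Module.Basis.ofVectorSpaceIndex ℚ ℝ) = #ι := by rw [h1, hι]
  obtain ⟨e⟩ := Cardinal.eq.mp h2
  exact ⟨b.reindex e⟩

theorem forward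
    (H : ∀ Z : Set ℝ, (∀ z ∈ Z, -z ∈ Z) → @MeasurableSet ℝ grp Z) (D : Set (ℝ × ℝ)) :
    @MeasurableSet _ rct D := by
  obtain ⟨b⟩ := exists_basis (ℝ ⊕ ℝ) (by simp [Cardinal.mk_real])
  let u : ℝ → ℝ := fun s => b (Sum.inl s)
  let v : ℝ → ℝ := fun s => b (Sum.inr s)
  let φ : ℝ × ℝ → ℝ := fun p => u p.1 + v p.2
  have hφ : @Measurable _ _ rct grp φ := by
    apply @measurable_generateFrom _ _ rct
    rintro _ ⟨G, rfl⟩
    exact rct_subgroup u v G
  let Z : Set ℝ := {z | ∃ p ∈ D, z = φ p ∨ z = -φ p}
  have hZ : ∀ z ∈ Z, -z ∈ Z := by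
    rintro z ⟨p, hp, h | h⟩
    · exact ⟨p, hp, Or.inr (by rw [h])⟩
    · exact ⟨p, hp, Or.inl (by rw [h]; simp)⟩
  have hr : ∀ p : ℝ × ℝ, b.repr (φ p) = Finsupp.single (Sum.inl p.1) 1 + Finsupp.single (Sum.inr p.2) 1 := by
    intro p
    simp [φ, u, v]
  have key : φ ⁻¹' Z = D := by
    ext p
    constructor
    · rintro ⟨q, hq, h | h⟩
      · have h1 := congrArg b.repr h
        rw [hr, hr] at h1
        have h2 := DFunLike.congr_fun h1 (Sum.inl p.1)
        have h3 := DFunLike.congr_fun h1 (Sum.inr p.2)
        simp [Finsupp.single_apply] at h2 h3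
        have : q = p := Prod.ext h2 h3
        rwa [← this]
      · have h1 := congrArg b.repr h
        rw [map_neg, hr, hr] at h1
        have h2 := DFunLike.congr_fun h1 (Sum.inl p.1)
        simp [Finsupp.single_apply] at h2
        split_ifs at h2 <;> norm_num at h2
    · intro hp
      exact ⟨p, hp, Or.inl rfl⟩
  rw [← key]
  exact hφ (H Z hZ)


/-- If every planar set is in the rectangle sigma-algebra, a pair of maps all of whose preimages are
measurable has the same property. -/
lemma pair_good (H : ∀ D : Set (ℝ × ℝ), @MeasurableSet _ rct D)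
    {Ω X Y : Type} (m : MeasurableSpace Ω) (i : X → ℝ) (hi : Function.Injective i)
    (j : Y → ℝ) (hj : Function.Injective j) (F : Ω → X) (G : Ω → Y)
    (hF : ∀ A : Set X, @MeasurableSet _ m (F ⁻¹' A))
    (hG : ∀ A : Set Y, @MeasurableSet _ m (G ⁻¹' A)) (A : Set (X × Y)) :
    @MeasurableSet _ m ((fun ω => (F ω, G ω)) ⁻¹' A) := by
  have hm : @Measurable _ _ m rct (fun ω => (i (F ω), j (G ω))) := by
    apply @measurable_generateFrom _ _ m
    rintro _ ⟨A', B', rfl⟩
    have h1 := hF (i ⁻¹' A')
    have h2 := hG (j ⁻¹' B')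
    exact @MeasurableSet.inter _ m _ _ h1 h2
  have h := hm (H ((Prod.map i j) '' A))
  convert h using 1
  ext ω
  simp only [Set.mem_preimage, Set.mem_image, Prod.exists, Prod.map, Prod.mk.injEq]
  constructor
  · intro h
    exact ⟨F ω, G ω, h, rfl, rfl⟩
  · rintro ⟨a, b, hab, h1, h2⟩
    rw [hi h1, hj h2] at hab
    exact hab

abbrev V : Type := ℝ →₀ ℚ

/-- The sigma-algebra on the rational vector space `V` generated by the fibres of the rational
linear functionals. -/
@[reducible] def lin : MeasurableSpace V :=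
  MeasurableSpace.generateFrom {S : Set V | ∃ (h : V →ₗ[ℚ] ℚ) (q : ℚ), h ⁻¹' {q} = S}

lemma lin_fibre (h : V →ₗ[ℚ] ℚ) (q : ℚ) : @MeasurableSet _ lin {x | h x = q} :=
  MeasurableSpace.measurableSet_generateFrom ⟨h, q, rfl⟩

/-- Sum of the coordinates in `A`. -/
noncomputable def sm (A : Set ℝ) : V →ₗ[ℚ] ℚ :=
  Finsupp.linearCombination ℚ (A.indicator (fun _ => (1 : ℚ)))

lemma sm_apply (A : Set ℝ) (x : V) : sm A x = ∑ t ∈ x.support, x t * A.indicator (fun _ => (1 : ℚ)) t := by
  rw [sm, Finsupp.linearCombination_apply, Finsupp.sum]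
  simp only [smul_eq_mul]

lemma sm_zero (A : Set ℝ) (x : V) (h : ∀ t ∈ A, x t = 0) : sm A x = 0 := by
  rw [sm_apply]
  apply Finset.sum_eq_zero
  intro t _
  by_cases ht : t ∈ A
  · rw [h t ht, zero_mul]
  · rw [Set.indicator_of_notMem ht, mul_zero]

lemma exists_isolating (x : V) (t : ℝ) (_ : x t ≠ 0) :
    ∃ p q : ℚ, t ∈ Set.Ioo (p : ℝ) q ∧ ∀ s ∈ Set.Ioo (p : ℝ) q, s ≠ t → x s = 0 := by
  have hU : IsOpen ((↑(x.support.erase t) : Set ℝ)ᶜ) := (Finset.finite_toSet _).isClosed.isOpen_compl
  have htU : t ∈ ((↑(x.support.erase t) : Set ℝ)ᶜ) := by simp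
  obtain ⟨W, hW, htW, hWU⟩ := Real.isTopologicalBasis_Ioo_rat.exists_subset_of_mem_open htU hU
  simp only [Set.mem_iUnion, Set.mem_singleton_iff] at hW
  obtain ⟨p, q, _, rfl⟩ := hW
  refine ⟨p, q, htW, fun s hs hst => ?_⟩
  have := hWU hs
  simp only [Finset.coe_erase, Set.mem_compl_iff, Set.mem_sdiff, Finset.mem_coe,
    Finsupp.mem_support_iff, Set.mem_singleton_iff, not_and, not_not] at this
  by_contra h
  exact hst (this h)

lemma sm_isolated (A : Set ℝ) (x : V) (t : ℝ) (htA : t ∈ A) (h : ∀ s ∈ A, s ≠ t → x s = 0) :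
    sm A x = x t := by
  rw [sm_apply]
  by_cases ht : t ∈ x.support
  · rw [Finset.sum_eq_single_of_mem t ht]
    · rw [Set.indicator_of_mem htA, mul_one]
    · intro s _ hst
      by_cases hs : s ∈ A
      · rw [h s hs hst, zero_mul]
      · rw [Set.indicator_of_notMem hs, mul_zero]
  · have ht' : x t = 0 := by simpa using ht
    rw [ht']
    apply Finset.sum_eq_zero
    intro s hs
    by_cases hsA : s ∈ A
    · have : s ≠ t := by rintro rfl; exact ht hs
      rw [h s hsA this, zero_mul]
    · rw [Set.indicator_of_notMem hsA, mul_zero]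

/-- Vectors vanishing on `A`. -/
lemma lin_vanish (A : Set ℝ) : @MeasurableSet _ lin {x : V | ∀ t ∈ A, x t = 0} := by
  have : {x : V | ∀ t ∈ A, x t = 0} = ⋂ p : ℚ, ⋂ q : ℚ, {x : V | sm (A ∩ Set.Ioo (p : ℝ) q) x = 0} := by
    ext x
    simp only [Set.mem_ofPred_eq, Set.mem_iInter]
    constructor
    · intro h p q
      exact sm_zero _ _ (fun t ht => h t ht.1)
    · intro h t ht
      by_contra hx
      obtain ⟨p, q, hpq, hs⟩ := exists_isolating x t hx
      have h1 := h p q
      rw [sm_isolated (A ∩ Set.Ioo (p : ℝ) q) x t ⟨ht, hpq⟩ (fun s hs' => hs s hs'.2)] at h1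
      exact hx h1
  rw [this]
  let _ := lin
  exact MeasurableSet.iInter fun p => MeasurableSet.iInter fun q => lin_fibre _ _


lemma filter_meas (p : ℝ → Prop) [DecidablePred p] :
    @Measurable _ _ lin lin (fun x : V => x.filter p) := by
  apply @measurable_generateFrom _ _ lin
  rintro _ ⟨h, q, rfl⟩
  exact lin_fibre (h ∘ₗ (Finsupp.filterAddHom (M := ℚ) p).toRatLinearMap) q

lemma card_one_meas : @MeasurableSet _ lin {x : V | x.support.card = 1} := by
  have : {x : V | x.support.card = 1} = {x : V | ∀ t ∈ (Set.univ : Set ℝ), x t = 0}ᶜ ∩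
      ⋂ r : ℚ, ({x : V | ∀ t ∈ Set.Iio (r : ℝ), x t = 0} ∪ {x : V | ∀ t ∈ Set.Ici (r : ℝ), x t = 0}) := by
    ext x
    simp only [Set.mem_ofPred_eq, Set.mem_inter_iff, Set.mem_compl_iff, Set.mem_iInter, Set.mem_union,
      Set.mem_Iio, Set.mem_Ici, Set.mem_univ, true_implies]
    constructor
    · intro h
      obtain ⟨t, ht⟩ := Finset.card_eq_one.mp h
      have hmem : ∀ s, x s ≠ 0 ↔ s = t := by
        intro s
        rw [← Finsupp.mem_support_iff, ht, Finset.mem_singleton]
      refine ⟨fun h0 => (hmem t).mpr rfl (h0 t), fun r => ?_⟩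
      rcases lt_or_ge t (r : ℝ) with h1 | h1
      · right
        intro s hs
        by_contra h2
        rw [(hmem s).mp h2] at hs
        linarith
      · left
        intro s hs
        by_contra h2
        rw [(hmem s).mp h2] at hs
        linarith
    · rintro ⟨h0, h1⟩
      push Not at h0
      obtain ⟨t, ht⟩ := h0
      rw [Finset.card_eq_one]
      refine ⟨t, ?_⟩
      ext s
      rw [Finsupp.mem_support_iff, Finset.mem_singleton]
      constructor
      · intro hs
        by_contra hne
        rcases lt_or_gt_of_ne hne with h2 | h2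
        · obtain ⟨r, hr1, hr2⟩ := exists_rat_btwn h2
          rcases h1 r with h3 | h3
          · exact hs (h3 s hr1)
          · exact ht (h3 t hr2.le)
        · obtain ⟨r, hr1, hr2⟩ := exists_rat_btwn h2
          rcases h1 r with h3 | h3
          · exact ht (h3 t hr1)
          · exact hs (h3 s hr2.le)
      · rintro rfl
        exact ht
  rw [this]
  let _ := lin
  exact (lin_vanish _).compl.inter (MeasurableSet.iInter fun r => (lin_vanish _).union (lin_vanish _))

lemma claim_one (A : Set V) : @MeasurableSet _ lin {x : V | x ∈ A ∧ x.support.card = 1} := by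
  have : {x : V | x ∈ A ∧ x.support.card = 1} = {x : V | x.support.card = 1} ∩
      ⋃ c : ℚ, ({x : V | sm Set.univ x = c} ∩
        {x : V | ∀ t ∈ {t : ℝ | Finsupp.single t c ∉ A}, x t = 0}) := by
    ext x
    simp only [Set.mem_ofPred_eq, Set.mem_inter_iff, Set.mem_iUnion]
    constructor
    · rintro ⟨hA, hx⟩
      refine ⟨hx, ?_⟩
      obtain ⟨t, ht⟩ := Finset.card_eq_one.mp hx
      obtain ⟨ht0, hxt⟩ := Finsupp.support_eq_singleton.mp ht
      refine ⟨x t, ?_, ?_⟩
      · apply sm_isolated _ _ _ (Set.mem_univ _)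
        intro s _ hs
        rw [hxt, Finsupp.single_eq_of_ne hs]
      · intro s hs
        by_cases hst : s = t
        · subst hst
          rw [← hxt] at hs
          exact absurd hA hs
        · rw [hxt, Finsupp.single_eq_of_ne hst]
    · rintro ⟨hx, c, hc, hv⟩
      refine ⟨?_, hx⟩
      obtain ⟨t, ht⟩ := Finset.card_eq_one.mp hx
      obtain ⟨ht0, hxt⟩ := Finsupp.support_eq_singleton.mp ht
      have h1 : sm Set.univ x = x t := by
        apply sm_isolated _ _ _ (Set.mem_univ _)
        intro s _ hs
        rw [hxt, Finsupp.single_eq_of_ne hs]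
      rw [h1] at hc
      by_contra hxA
      rw [hxt, hc] at hxA
      exact ht0 (hv t hxA)
  rw [this]
  let _ := lin
  exact card_one_meas.inter (MeasurableSet.iUnion fun c => (lin_fibre _ _).inter (lin_vanish _))

lemma trunc_good (k : ℕ) (hk : ∀ A : Set V, @MeasurableSet _ lin {x : V | x ∈ A ∧ x.support.card = k})
    (B : Set V) : @MeasurableSet _ lin ((fun y : V => if y.support.card = k then y else 0) ⁻¹' B) := by
  have : ((fun y : V => if y.support.card = k then y else 0) ⁻¹' B) =
      {x : V | x ∈ B ∧ x.support.card = k} ∪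
        ({x : V | x ∈ (Set.univ : Set V) ∧ x.support.card = k}ᶜ ∩ {_x : V | (0 : V) ∈ B}) := by
    ext x
    simp only [Set.mem_preimage, Set.mem_union, Set.mem_ofPred_eq, Set.mem_inter_iff,
      Set.mem_compl_iff, Set.mem_univ, true_and]
    split_ifs with h
    · simp [h]
    · simp [h]
  rw [this]
  let _ := lin
  exact (hk B).union ((hk _).compl.inter (MeasurableSet.const _))

lemma claim_all (H : ∀ D : Set (ℝ × ℝ), @MeasurableSet _ rct D) (n : ℕ) :
    ∀ A : Set V, @MeasurableSet _ lin {x : V | x ∈ A ∧ x.support.card = n + 1} := by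
  induction n with
  | zero => exact claim_one
  | succ n ih =>
    intro A
    obtain ⟨b⟩ := exists_basis ℝ Cardinal.mk_real
    let j : V → ℝ := b.repr.symm
    have hj : Function.Injective j := b.repr.symm.injective
    have key : {x : V | x ∈ A ∧ x.support.card = n + 1 + 1} = ⋃ r : ℚ,
        ({x : V | (x.filter (· < (r : ℝ))).support.card = 1} ∩
        ({x : V | (x.filter (fun t => ¬ t < (r : ℝ))).support.card = n + 1} ∩
        ((fun x : V => ((fun y : V => if y.support.card = 1 then y else 0) (x.filter (· < (r : ℝ))),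
          (fun y : V => if y.support.card = n + 1 then y else 0)
            (x.filter (fun t => ¬ t < (r : ℝ))))) ⁻¹' {p : V × V | p.1 + p.2 ∈ A}))) := by
      ext x
      simp only [Set.mem_ofPred_eq, Set.mem_inter_iff, Set.mem_iUnion, Set.mem_preimage]
      constructor
      · rintro ⟨hA, hx⟩
        have hne : x.support.Nonempty := by
          rw [← Finset.card_pos]; omega
        have hne2 : (x.support.erase (x.support.min' hne)).Nonempty := by
          rw [← Finset.card_pos, Finset.card_erase_of_mem (Finset.min'_mem _ _)]; omega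
        have hlt : x.support.min' hne < (x.support.erase (x.support.min' hne)).min' hne2 := by
          have h1 := Finset.min'_mem _ hne2
          exact Finset.min'_lt_of_mem_erase_min' _ hne h1
        obtain ⟨r, hr1, hr2⟩ := exists_rat_btwn hlt
        have hf1 : (x.filter (· < (r : ℝ))).support = {x.support.min' hne} := by
          ext t
          rw [Finsupp.support_filter, Finset.mem_filter, Finset.mem_singleton]
          constructor
          · rintro ⟨h1, h2⟩
            by_contra h3
            have h4 : t ∈ x.support.erase (x.support.min' hne) := Finset.mem_erase.mpr ⟨h3, h1⟩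
            have h5 := Finset.min'_le _ _ h4
            linarith
          · rintro rfl
            exact ⟨Finset.min'_mem _ _, hr1⟩
        have hcard : (x.filter (· < (r : ℝ))).support.card = 1 := by rw [hf1]; simp
        have hsum : (x.filter (· < (r : ℝ))).support.card +
            (x.filter (fun t => ¬ t < (r : ℝ))).support.card = x.support.card := by
          rw [Finsupp.support_filter, Finsupp.support_filter]
          exact Finset.card_filter_add_card_filter_not _
        have hcard2 : (x.filter (fun t => ¬ t < (r : ℝ))).support.card = n + 1 := by omega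
        refine ⟨r, hcard, hcard2, ?_⟩
        rw [if_pos hcard, if_pos hcard2, Finsupp.filter_add_filter_not]
        exact hA
      · rintro ⟨r, hcard, hcard2, hA⟩
        rw [if_pos hcard, if_pos hcard2, Finsupp.filter_add_filter_not] at hA
        have hsum : (x.filter (· < (r : ℝ))).support.card +
            (x.filter (fun t => ¬ t < (r : ℝ))).support.card = x.support.card := by
          rw [Finsupp.support_filter, Finsupp.support_filter]
          exact Finset.card_filter_add_card_filter_not _
        exact ⟨hA, by omega⟩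
    rw [key]
    let _ := lin
    refine MeasurableSet.iUnion fun r => ?_
    refine MeasurableSet.inter ?_ (MeasurableSet.inter ?_ ?_)
    · exact filter_meas (· < (r : ℝ)) card_one_meas
    · have := filter_meas (fun t => ¬ t < (r : ℝ)) (ih Set.univ)
      simpa using this
    · refine pair_good H lin j hj j hj _ _ ?_ ?_ _
      · intro B
        exact filter_meas (· < (r : ℝ)) (trunc_good 1 claim_one B)
      · intro B
        exact filter_meas (fun t => ¬ t < (r : ℝ)) (trunc_good (n + 1) ih B)

lemma lin_top (H : ∀ D : Set (ℝ × ℝ), @MeasurableSet _ rct D) (A : Set V) :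
    @MeasurableSet _ lin A := by
  have : A = ({x : V | ∀ t ∈ (Set.univ : Set ℝ), x t = 0} ∩ {_x : V | (0 : V) ∈ A}) ∪
      ⋃ n : ℕ, {x : V | x ∈ A ∧ x.support.card = n + 1} := by
    ext x
    simp only [Set.mem_union, Set.mem_inter_iff, Set.mem_ofPred_eq, Set.mem_iUnion, Set.mem_univ,
      true_implies]
    have h0 : (∀ t, x t = 0) ↔ x = 0 := by
      constructor
      · intro h; ext t; exact h t
      · rintro rfl t; rfl
    rw [h0]
    constructor
    · intro hA
      by_cases hx : x = 0
      · left; exact ⟨hx, hx ▸ hA⟩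
      · right
        have : x.support.card ≠ 0 := by
          rw [Ne, Finset.card_eq_zero, Finsupp.support_eq_empty]; exact hx
        exact ⟨x.support.card - 1, hA, by omega⟩
    · rintro (⟨hx, h⟩ | ⟨n, h, _⟩)
      · rw [hx]; exact h
      · exact h
  rw [this]
  let _ := lin
  exact ((lin_vanish _).inter (MeasurableSet.const _)).union
    (MeasurableSet.iUnion fun n => claim_all H n A)


lemma grp_sub (G : AddSubgroup ℝ) : @MeasurableSet _ grp (G : Set ℝ) :=
  MeasurableSpace.measurableSet_generateFrom ⟨G, rfl⟩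

lemma grp_pm (φ : ℝ →+ ℚ × ℚ) (v : ℚ × ℚ) :
    @MeasurableSet _ grp {x : ℝ | φ x = v ∨ φ x = -v} := by
  by_cases hv : v = 0
  · have : {x : ℝ | φ x = v ∨ φ x = -v} = (φ.ker : Set ℝ) := by
      ext x
      simp [hv, AddMonoidHom.mem_ker]
    rw [this]
    exact grp_sub _
  · have : {x : ℝ | φ x = v ∨ φ x = -v} =
        (((AddSubgroup.zmultiples v).comap φ : AddSubgroup ℝ) : Set ℝ) \
          ⋃ n : ℕ, (((AddSubgroup.zmultiples ((n + 2) • v)).comap φ : AddSubgroup ℝ) : Set ℝ) := by
      ext x
      simp only [Set.mem_ofPred_eq, Set.mem_sdiff, SetLike.mem_coe, AddSubgroup.mem_comap,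
        Set.mem_iUnion, not_exists, AddSubgroup.mem_zmultiples_iff]
      have hinj : ∀ a b : ℤ, a • v = b • v → a = b := by
        intro a b hab
        have h1 : (a - b) • v = 0 := by rw [sub_smul, hab, sub_self]
        rcases smul_eq_zero.mp h1 with h2 | h2
        · omega
        · exact absurd h2 hv
      constructor
      · intro h
        have hk : ∃ e : ℤ, (e = 1 ∨ e = -1) ∧ φ x = e • v := by
          rcases h with h | h
          · exact ⟨1, Or.inl rfl, by rw [h]; simp⟩
          · exact ⟨-1, Or.inr rfl, by rw [h]; simp⟩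
        obtain ⟨e, he, hx⟩ := hk
        refine ⟨⟨e, hx.symm⟩, ?_⟩
        intro n k hk
        rw [hx, ← natCast_zsmul, smul_smul] at hk
        have h2 := hinj _ _ hk
        have h3 : ((n + 2 : ℕ) : ℤ) ∣ e := ⟨k, by rw [← h2]; ring⟩
        have h4 : ((n + 2 : ℕ) : ℤ) ∣ 1 := by
          rcases he with rfl | rfl
          · exact h3
          · exact (Int.dvd_neg).mp (by simpa using h3)
        have h5 := Int.le_of_dvd one_pos h4
        push_cast at h5
        omega
      · rintro ⟨⟨k, hk⟩, hn⟩
        rcases Nat.lt_or_ge k.natAbs 2 with h1 | h1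
        · have h2 : k = 0 ∨ k = 1 ∨ k = -1 := by omega
          rcases h2 with rfl | rfl | rfl
          · exfalso
            exact hn 0 0 (by rw [← hk]; simp)
          · left; rw [← hk]; simp
          · right; rw [← hk]; simp
        · exfalso
          obtain ⟨m, hm⟩ := Nat.exists_eq_add_of_le' h1
          rcases Int.natAbs_eq k with h2 | h2
          · apply hn m 1
            rw [← hk, h2, hm, one_smul, ← natCast_zsmul]
          · apply hn m (-1)
            rw [← hk, h2, hm, neg_smul, one_smul, neg_smul, natCast_zsmul]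
    rw [this]
    let _ := grp
    exact (grp_sub _).diff (MeasurableSet.iUnion fun n => grp_sub _)

theorem backward (H : ∀ D : Set (ℝ × ℝ), @MeasurableSet _ rct D)
    (Z : Set ℝ) (hZ : ∀ z ∈ Z, -z ∈ Z) : @MeasurableSet ℝ grp Z := by
  classical
  obtain ⟨b⟩ := exists_basis ℝ Cardinal.mk_real
  let L : ℝ ≃ₗ[ℚ] V := b.repr
  obtain ⟨f, hf⟩ := exists_surjective_nat (ℚ × ℚ)
  let g : ℕ → V →ₗ[ℚ] ℚ := fun n => sm (Set.Ioo ((f n).1 : ℝ) (f n).2)
  have hg : ∀ x : V, x ≠ 0 → ∃ n, g n x ≠ 0 := by
    intro x hx
    obtain ⟨t, ht⟩ := Finsupp.ne_iff.mp hx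
    obtain ⟨p, q, hpq, hs⟩ := exists_isolating x t ht
    obtain ⟨n, hn⟩ := hf (p, q)
    refine ⟨n, ?_⟩
    have h1 : g n x = x t := by
      simp only [g, hn]
      exact sm_isolated _ x t hpq hs
    rw [h1]
    exact ht
  let P : Set V := {x | ∃ n, (∀ i < n, g i x = 0) ∧ 0 < g n x}
  let θ : ℝ → V := fun x => if L x ∈ P then L x else -L x
  have hθ : @Measurable _ _ grp lin θ := by
    apply @measurable_generateFrom _ _ grp
    rintro _ ⟨h, q, rfl⟩
    let φ : ℕ → ℝ →+ ℚ × ℚ := fun n =>
      AddMonoidHom.prod ((g n ∘ₗ L.toLinearMap).toAddMonoidHom) ((h ∘ₗ L.toLinearMap).toAddMonoidHom)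
    have hφ : ∀ n x, φ n x = (g n (L x), h (L x)) := fun n x => rfl
    have key : θ ⁻¹' (h ⁻¹' {q}) =
        ({x : ℝ | L x = 0} ∩ {_x : ℝ | q = 0}) ∪
        ⋃ n : ℕ, ((⋂ i : ℕ, {x : ℝ | i < n → g i (L x) = 0}) ∩
          ⋃ c : ℚ, ({x : ℝ | φ n x = (c, q) ∨ φ n x = -(c, q)} ∩ {_x : ℝ | 0 < c})) := by
      ext x
      simp only [Set.mem_preimage, Set.mem_singleton_iff, Set.mem_union, Set.mem_inter_iff,
        Set.mem_ofPred_eq, Set.mem_iUnion, Set.mem_iInter, hφ, Prod.mk.injEq, Prod.neg_mk, θ]
      by_cases hx : L x = 0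
      · have h1 : ∀ n, g n (L x) = 0 := fun n => by rw [hx, map_zero]
        have h2 : L x ∉ P := by
          rintro ⟨n, _, hn⟩
          rw [h1] at hn
          exact lt_irrefl _ hn
        rw [if_neg h2, hx]
        simp only [neg_zero, map_zero, true_and, implies_true]
        constructor
        · intro h3
          left; exact h3.symm
        · rintro (h3 | ⟨n, c, h3, h4⟩)
          · exact h3.symm
          · rcases h3 with h3 | h3
            · exact h3.2
            · linarith [h3.1]
      · have hex := hg (L x) hx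
        let n := Nat.find hex
        have hn : g n (L x) ≠ 0 := Nat.find_spec hex
        have hmin : ∀ i < n, g i (L x) = 0 := by
          intro i hi
          by_contra h1
          exact Nat.find_min hex hi h1
        have huniq : ∀ m, (∀ i < m, g i (L x) = 0) → g m (L x) ≠ 0 → m = n := by
          intro m h1 h2
          rcases lt_trichotomy m n with h3 | h3 | h3
          · exact absurd (hmin m h3) h2
          · exact h3
          · exact absurd (h1 n h3) hn
        constructor
        · intro h1
          right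
          refine ⟨n, hmin, ?_⟩
          rcases lt_or_gt_of_ne hn with h2 | h2
          · have h3 : L x ∉ P := by
              rintro ⟨m, h4, h5⟩
              have := huniq m h4 h5.ne'
              rw [this] at h5
              linarith
            rw [if_neg h3, map_neg] at h1
            exact ⟨-g n (L x), Or.inr ⟨by ring, by linarith⟩, by linarith⟩
          · have h3 : L x ∈ P := ⟨n, hmin, h2⟩
            rw [if_pos h3] at h1
            exact ⟨g n (L x), Or.inl ⟨rfl, h1⟩, h2⟩
        · rintro (⟨h1, _⟩ | ⟨m, h1, c, h2, hc⟩)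
          · exact absurd h1 hx
          · have hm : g m (L x) ≠ 0 := by
              rcases h2 with h2 | h2
              · rw [h2.1]; exact hc.ne'
              · rw [h2.1]; linarith
            have hmn := huniq m h1 hm
            rcases h2 with h2 | h2
            · have h3 : L x ∈ P := ⟨m, h1, by rw [h2.1]; exact hc⟩
              rw [if_pos h3]
              exact h2.2
            · have h3 : L x ∉ P := by
                rintro ⟨k, h4, h5⟩
                have h6 := huniq k h4 h5.ne'
                rw [h6, ← hmn, h2.1] at h5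
                linarith
              rw [if_neg h3, map_neg, h2.2, neg_neg]
    rw [key]
    let _ := grp
    refine MeasurableSet.union (MeasurableSet.inter ?_ (MeasurableSet.const _))
      (MeasurableSet.iUnion fun n => MeasurableSet.inter (MeasurableSet.iInter fun i => ?_)
        (MeasurableSet.iUnion fun c => MeasurableSet.inter (grp_pm _ _) (MeasurableSet.const _)))
    · convert grp_sub L.toLinearMap.toAddMonoidHom.ker using 1
      ext x
      simp [AddMonoidHom.mem_ker]
    · by_cases hi : i < n
      · simp only [hi, true_implies]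
        convert grp_sub (g i ∘ₗ L.toLinearMap).toAddMonoidHom.ker using 1
        ext x
        simp [AddMonoidHom.mem_ker]
      · simp only [hi, false_implies]
        exact MeasurableSet.const _
  have hfin : θ ⁻¹' (L '' Z) = Z := by
    ext x
    simp only [Set.mem_preimage, Set.mem_image, θ]
    split_ifs with hP
    · constructor
      · rintro ⟨y, hy, hxy⟩
        rw [← L.injective hxy]; exact hy
      · intro hx; exact ⟨x, hx, rfl⟩
    · constructor
      · rintro ⟨y, hy, hxy⟩
        have : y = -x := L.injective (by rw [hxy, map_neg])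
        have h2 := hZ y hy
        rw [this, neg_neg] at h2
        exact h2
      · intro hx; exact ⟨-x, hZ x hx, by rw [map_neg]⟩
  rw [← hfin]
  exact hθ (lin_top H _)

/-- Every symmetric set of reals belongs to the sigma-algebra generated by the additive subgroups
of the reals if and only if every subset of the plane belongs to the sigma-algebra generated by
all rectangles with arbitrary sides. -/
theorem result :
    (∀ Z : Set ℝ, (∀ z ∈ Z, -z ∈ Z) →
      @MeasurableSet ℝ
        (MeasurableSpace.generateFrom {S : Set ℝ | ∃ G : AddSubgroup ℝ, (G : Set ℝ) = S}) Z) ↔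
    (∀ D : Set (ℝ × ℝ),
      @MeasurableSet (ℝ × ℝ)
        (MeasurableSpace.generateFrom {R : Set (ℝ × ℝ) | ∃ A B : Set ℝ, R = A ×ˢ B}) D) :=
  ⟨fun H D => forward H D, fun H Z hZ => backward H Z hZ⟩

end Pool.Agent.Results.MP_fbee13_lc.RectangleEquivalence
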